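import Pool.Agent.Helper23_FT.Defs

/-!
# The size of the discriminant; the discriminant is not zero
-/

namespace Pool.Agent.FT.H69

open Polynomial Pool.Agent.Helper79FreyD Pool.Agent.Helper65FreyD

lemma norm_prod_le (K : ℝ) (hK : 0 ≤ K) (M : Multiset ℂ) (h : ∀ x ∈ M, ‖x‖ ≤ K) :
    ‖M.prod‖ ≤ K ^ M.card := by
  induction M using Multiset.induction_on with
  | empty => simp
  | cons a M ih =>
    rw [Multiset.prod_cons, Multiset.card_cons, norm_mul, pow_succ']
    exact mul_le_mul (h a (Multiset.mem_cons_self a M))
      (ih fun x hx => h x (Multiset.mem_cons_of_mem hx)) (norm_nonneg _) hK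

theorem r1 : R1Stmt := by
  classical
  intro n f hm hn B hB hRB
  rcases Nat.eq_zero_or_pos n with h0 | hpos
  · subst h0
    have h1 : f = 1 := (hm.natDegree_eq_zero).1 hn
    rw [h1, ← C_1, discr_C]
    simp
  have hdeg : 0 < f.degree := natDegree_pos_iff_degree_pos.1 (by omega)
  have hres := resultant_deriv hdeg
  set F := f.map (Int.castRingHom ℂ) with hF
  have hFm : F.Monic := hm.map _
  have hFn : F.natDegree = n := by rw [hF, hm.natDegree_map, hn]
  have hsp : F.Splits := IsAlgClosed.splits F
  have h2 : resultant F F.derivative n (n - 1)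
      = (F.roots.map F.derivative.eval).prod := by
    have := resultant_eq_prod_eval F F.derivative (n - 1)
      ((natDegree_derivative_le F).trans (by rw [hFn])) hsp
    rw [hFn, hFm.leadingCoeff, one_pow, one_mul] at this
    exact this
  have h3 : ((resultant f f.derivative n (n - 1) : ℤ) : ℂ)
      = (F.roots.map F.derivative.eval).prod := by
    rw [← h2, hF, derivative_map, resultant_map_map]
    rfl
  have hcard : F.roots.card = n := by rw [← hsp.natDegree_eq_card_roots, hFn]
  have hroot : ∀ x ∈ F.roots, ‖x‖ ≤ B := by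
    intro x hx
    refine hRB x ?_
    rw [← eval_map]
    exact (mem_roots hFm.ne_zero).1 hx
  have h4 : ‖(F.roots.map F.derivative.eval).prod‖ ≤ ((2 * B) ^ (n - 1)) ^ n := by
    have := norm_prod_le ((2 * B) ^ (n - 1)) (by positivity) (F.roots.map F.derivative.eval) ?_
    · rwa [Multiset.card_map, hcard] at this
    intro y hy
    obtain ⟨x, hx, rfl⟩ := Multiset.mem_map.1 hy
    rw [hsp.eval_root_derivative hFm hx]
    have := norm_prod_le (2 * B) (by positivity) ((F.roots.erase x).map (x - ·)) ?_
    · rwa [Multiset.card_map, Multiset.card_erase_of_mem hx, hcard] at this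
    intro z hz
    obtain ⟨w, hw, rfl⟩ := Multiset.mem_map.1 hz
    refine (norm_sub_le _ _).trans ?_
    have := hroot x hx
    have := hroot w (Multiset.mem_of_mem_erase hw)
    linarith
  rw [hn, hm.leadingCoeff, mul_one] at hres
  have h5 : |(f.discr : ℝ)| = ‖((resultant f f.derivative n (n - 1) : ℤ) : ℂ)‖ := by
    rw [hres, Int.cast_mul, norm_mul, Int.cast_pow, norm_pow]
    simp
  rw [h5, h3]
  refine h4.trans (le_of_eq ?_)
  rw [← pow_mul, mul_comm (n - 1) n]

theorem r2 : R2Stmt := by
  intro f hm hs h0
  rcases Nat.eq_zero_or_pos f.natDegree with h | hpos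
  · have h1 : f = 1 := (hm.natDegree_eq_zero).1 h
    rw [h1, ← C_1, discr_C] at h0
    exact one_ne_zero h0
  have hdeg : 0 < f.degree := natDegree_pos_iff_degree_pos.1 hpos
  have hres := resultant_deriv hdeg
  rw [h0, mul_zero] at hres
  have h2 : resultant (toQ f) (toQ f).derivative f.natDegree (f.natDegree - 1) = 0 := by
    have : resultant (f.map (Int.castRingHom ℚ)) (f.map (Int.castRingHom ℚ)).derivative
        f.natDegree (f.natDegree - 1) = 0 := by
      rw [derivative_map, resultant_map_map, hres, map_zero]
    exact this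
  have hn : (toQ f).natDegree = f.natDegree := hm.natDegree_map _
  have hn' : (toQ f).derivative.natDegree = f.natDegree - 1 := by
    rw [← hn]
    exact natDegree_eq_of_degree_eq_some (by
      rw [degree_derivative_eq (toQ f) (by omega)]
)
  have h3 : resultant (toQ f) (toQ f).derivative = 0 := by
    unfold resultant at h2 ⊢
    rw [hn, hn']
    exact h2
  exact (resultant_eq_zero_iff.1 h3).2 hs

end Pool.Agent.FT.H69
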