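import Pool.Agent.Helper23_FT.Defs

/-!
# The discriminant is divisible by the differences of the roots
-/

namespace Pool.Agent.FT.H69

open Polynomial

/-- A column of a Sylvester matrix, multiplied by the powers of a number. -/
lemma col_sum {A S : Type*} [CommRing A] [CommRing S] (φ : A →+* S) (g : A[X]) (a : S)
    (n N j : ℕ) (hg : g.natDegree ≤ n) (hN : j + n + 1 ≤ N) :
    ∑ i : Fin N, a ^ (i : ℕ) * φ (if (i : ℕ) ∈ Set.Icc j (j + n) then g.coeff ((i : ℕ) - j) else 0)
      = a ^ j * g.eval₂ φ a := by
  classical
  rw [Fin.sum_univ_eq_sum_range (fun i : ℕ => a ^ i *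
    φ (if i ∈ Set.Icc j (j + n) then g.coeff (i - j) else 0)) N]
  have h1 : ∑ i ∈ Finset.range N, a ^ i *
      φ (if i ∈ Set.Icc j (j + n) then g.coeff (i - j) else 0)
      = ∑ i ∈ Finset.Ico j (j + n + 1), a ^ i * φ (g.coeff (i - j)) := by
    have hsub : Finset.Ico j (j + n + 1) ⊆ Finset.range N := by
      intro i hi
      rw [Finset.mem_Ico] at hi
      rw [Finset.mem_range]
      omega
    rw [← Finset.sum_subset hsub]
    · refine Finset.sum_congr rfl fun i hi => ?_
      rw [Finset.mem_Ico] at hi
      rw [if_pos (Set.mem_Icc.2 ⟨hi.1, by omega⟩)]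
    · intro i _ hi
      rw [Finset.mem_Ico] at hi
      rw [if_neg (fun h => hi ⟨(Set.mem_Icc.1 h).1, by have := (Set.mem_Icc.1 h).2; omega⟩),
        map_zero, mul_zero]
  rw [h1, Finset.sum_Ico_eq_sum_range, eval₂_eq_sum_range' φ (Nat.lt_succ_of_le hg), Finset.mul_sum,
    show j + n + 1 - j = n.succ by omega]
  refine Finset.sum_congr rfl fun k _ => ?_
  rw [show j + k - j = k by omega, pow_add]
  ring

/-- A common root of the polynomial and of its derivative kills the discriminant. -/
lemma discr_eq_zero_of_root {A S : Type*} [CommRing A] [CommRing S] (φ : A →+* S) (f : A[X])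
    (hd : 2 ≤ f.natDegree) (a : S) (h0 : f.eval₂ φ a = 0) (h1 : f.derivative.eval₂ φ a = 0) :
    φ f.discr = 0 := by
  classical
  have hsyl : ∀ j, ∑ i : Fin (f.natDegree - 1 + f.natDegree), a ^ (i : ℕ) *
      φ (f.derivative.sylvester f (f.natDegree - 1) f.natDegree i j) = 0 := by
    intro j
    induction j using Fin.addCases with
    | left j =>
      have := col_sum φ f a f.natDegree (f.natDegree - 1 + f.natDegree) j le_rfl (by omega)
      rw [h0, mul_zero] at this
      rw [← this]
      refine Finset.sum_congr rfl fun i _ => ?_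
      rw [sylvester, Matrix.of_apply, Fin.addCases_left]
    | right j =>
      have := col_sum φ f.derivative a (f.natDegree - 1) (f.natDegree - 1 + f.natDegree) j
        (natDegree_derivative_le f) (by omega)
      rw [h1, mul_zero] at this
      rw [← this]
      refine Finset.sum_congr rfl fun i _ => ?_
      rw [sylvester, Matrix.of_apply, Fin.addCases_right]
  have hpos : 0 < f.natDegree := by omega
  set last : Fin (f.natDegree - 1 + f.natDegree) := ⟨2 * f.natDegree - 2, by omega⟩ with hlast
  have hup := sylvesterDeriv_updateRow f hpos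
  set M := f.sylvesterDeriv with hM
  set v : Fin (f.natDegree - 1 + f.natDegree) → S := fun i =>
    if i = last then φ f.leadingCoeff * a ^ (i : ℕ) else a ^ (i : ℕ) with hv
  have hker : Matrix.vecMul v (φ.mapMatrix M) = 0 := by
    funext j
    rw [Pi.zero_apply, ← hsyl j, Matrix.vecMul_eq_sum, Finset.sum_apply]
    refine Finset.sum_congr rfl fun i _ => ?_
    rw [← hup, Pi.smul_apply, smul_eq_mul]
    simp only [RingHom.mapMatrix_apply, Matrix.map_apply, hv]
    by_cases hi : i = last
    · subst hi
      rw [Matrix.updateRow_self, if_pos rfl, Pi.smul_apply, smul_eq_mul, map_mul]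
      ring
    · rw [Matrix.updateRow_ne hi, if_neg hi]
  have hdet : (φ.mapMatrix M).det • v = 0 := by
    have := congrArg (fun w => Matrix.vecMul w (φ.mapMatrix M).adjugate) hker
    simp only [Matrix.vecMul_vecMul, Matrix.mul_adjugate, Matrix.zero_vecMul] at this
    rw [Matrix.vecMul_smul, Matrix.vecMul_one] at this
    exact this
  have hz : (φ.mapMatrix M).det = 0 := by
    have := congrFun hdet ⟨0, by omega⟩
    rw [Pi.smul_apply, Pi.zero_apply, smul_eq_mul] at this
    have hne : (⟨0, by omega⟩ : Fin (f.natDegree - 1 + f.natDegree)) ≠ last := by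
      rw [hlast]
      intro h
      have := congrArg Fin.val h
      simp only at this
      omega
    simp only [hv] at this
    rw [if_neg hne] at this
    simpa using this
  unfold Polynomial.discr
  rw [map_mul, RingHom.map_det, ← hM, hz, zero_mul]

theorem r3 : R3Stmt := by
  intro R _ _ f n θ hf i j hij
  have hn : 2 ≤ f.natDegree := by
    have h1 : (f.map (Int.castRingHom R)).natDegree = n := by
      rw [hf, natDegree_prod_of_monic _ _ fun k _ => monic_X_sub_C _]
      simp
    have h2 : (f.map (Int.castRingHom R)).natDegree ≤ f.natDegree := natDegree_map_le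
    have h3 : 2 ≤ n := by
      by_contra h
      push Not at h
      have := i.2
      have := j.2
      exact hij (Fin.ext (by omega))
    omega
  rw [← Ideal.mem_span_singleton, ← Ideal.Quotient.eq_zero_iff_mem]
  set π := Ideal.Quotient.mk (Ideal.span {θ i - θ j}) with hπ
  have hπe : π (θ i) = π (θ j) := by
    rw [← sub_eq_zero, ← map_sub]
    exact Ideal.Quotient.eq_zero_iff_mem.2 (Ideal.mem_span_singleton_self _)
  have hmap : f.map (π.comp (Int.castRingHom R)) = ∏ k, (X - C (π (θ k))) := by
    rw [← Polynomial.map_map, hf, Polynomial.map_prod]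
    simp
  have key := discr_eq_zero_of_root (π.comp (Int.castRingHom R)) f hn (π (θ i)) ?_ ?_
  · simpa using key
  · rw [← eval_map, hmap, eval_prod]
    exact Finset.prod_eq_zero (Finset.mem_univ i) (by simp)
  · rw [← eval_map, ← derivative_map, hmap, derivative_prod_finset, eval_finset_sum]
    refine Finset.sum_eq_zero fun k _ => ?_
    rw [eval_mul, eval_prod]
    by_cases hk : k = i
    · rw [Finset.prod_eq_zero (i := j), zero_mul]
      · rw [Finset.mem_erase]
        exact ⟨fun h => hij (by rw [← hk, h]), Finset.mem_univ _⟩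
      · simp [hπe]
    · rw [Finset.prod_eq_zero (i := i), zero_mul]
      · rw [Finset.mem_erase]
        exact ⟨fun h => hk h.symm, Finset.mem_univ _⟩
      · simp

end Pool.Agent.FT.H69
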